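import Mathlib
import Pool.Agent.H15.LE3

set_option autoImplicit false

namespace Pool.Agent.Results.MP_4bd73f_an.Embed

open Pool.Agent.H15.LE

/-- A quasi-greedy basis of a superreflexive space embeds it into `d_{1,r}(w_l)` for some finite `r`. -/
theorem result {𝕜 : Type*} [RCLike 𝕜] {X : Type*} [NormedAddCommGroup X] [NormedSpace 𝕜 X]
    {Y : Type*} [NormedAddCommGroup Y] [NormedSpace 𝕜 Y] [UniformConvexSpace Y]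
    (T : X ≃L[𝕜] Y) (x : ℕ → X) (f : ℕ → X →L[𝕜] 𝕜)
    (hbi : ∀ n k, f n (x k) = if n = k then 1 else 0)
    (hd : Dense (Submodule.span 𝕜 (Set.range x) : Set X))
    (hb : ∃ M : ℝ, ∀ n, ‖x n‖ ≤ M ∧ ‖f n‖ ≤ M)
    (hqg : ∃ C : ℝ, ∀ (y : X) (B : Finset ℕ), B.Nonempty →
      (∀ n ∈ B, ∀ k ∉ B, ‖f k y‖ ≤ ‖f n y‖) → ‖∑ n ∈ B, f n y • x n‖ ≤ C * ‖y‖) :
    ∃ r : ℝ, 1 ≤ r ∧ ∃ C : ℝ, ∀ y : X,
      Summable (fun m : ℕ => rearr (fun n => ‖f n y‖) (m+1) ^ r * phiL 𝕜 x (m+1) ^ (r - 1)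
        * (phiL 𝕜 x (m+1) - phiL 𝕜 x m)) ∧
      (∑' m : ℕ, rearr (fun n => ‖f n y‖) (m+1) ^ r * phiL 𝕜 x (m+1) ^ (r - 1)
        * (phiL 𝕜 x (m+1) - phiL 𝕜 x m)) ^ (1 / r) ≤ C * ‖y‖ :=
  main T x f hbi hd hb hqg

end Pool.Agent.Results.MP_4bd73f_an.Embed
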